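import Mathlib

set_option autoImplicit false

namespace Pool.Agent.Results.MP_89e789_an.HalfExponent

open Matrix

/-- The data of a multilevel hierarchy: sizes `n l`, system matrices `A l`, prolongations
`P l : ℝ^(n l) → ℝ^(n (l+1))`, restrictions `R l : ℝ^(n (l+1)) → ℝ^(n l)` and smoother
parameters `Lam l`. Only the levels up to the depth matter. -/
structure Hierarchy where
  n : ℕ → ℕ
  A : ∀ l, Matrix (Fin (n l)) (Fin (n l)) ℝ
  P : ∀ l, Matrix (Fin (n (l + 1))) (Fin (n l)) ℝ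
  R : ∀ l, Matrix (Fin (n l)) (Fin (n (l + 1))) ℝ
  Lam : ℕ → ℝ

/-- The spectral radius of a real matrix: the largest modulus of a complex eigenvalue. -/
noncomputable def rho {k : ℕ} (A : Matrix (Fin k) (Fin k) ℝ) : ℝ :=
  sSup {t : ℝ | ∃ μ : ℂ, μ ∈ spectrum ℂ (A.map (algebraMap ℝ ℂ)) ∧ t = ‖μ‖}

/-- The Euclidean norm. -/
noncomputable def enorm2 {k : ℕ} (v : Fin k → ℝ) : ℝ := Real.sqrt (v ⬝ᵥ v)

/-- The energy inner product `⟨u, v⟩_A = uᵀ A v`. -/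
def ainner {k : ℕ} (A : Matrix (Fin k) (Fin k) ℝ) (u v : Fin k → ℝ) : ℝ := u ⬝ᵥ (A *ᵥ v)

/-- The energy norm. -/
noncomputable def anorm {k : ℕ} (A : Matrix (Fin k) (Fin k) ℝ) (v : Fin k → ℝ) : ℝ :=
  Real.sqrt (ainner A v v)

/-- Richardson smoother on level `l`. -/
noncomputable def Hierarchy.K (H : Hierarchy) (l : ℕ) : Matrix (Fin (H.n l)) (Fin (H.n l)) ℝ :=
  1 - (H.Lam l)⁻¹ • H.A l

/-- The operator `Π_l = A_l⁻¹ R_l A_(l+1)`. -/
noncomputable def Hierarchy.Pi (H : Hierarchy) (l : ℕ) :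
    Matrix (Fin (H.n l)) (Fin (H.n (l + 1))) ℝ :=
  (H.A l)⁻¹ * H.R l * H.A (l + 1)

/-- The error operator of the symmetric V-cycle with `m` pre- and `m` post-smoothing steps. -/
noncomputable def Hierarchy.E (H : Hierarchy) (m : ℕ) :
    ∀ l, Matrix (Fin (H.n l)) (Fin (H.n l)) ℝ
  | 0 => 0
  | l + 1 => H.K (l + 1) ^ m * (1 - H.P l * (1 - Hierarchy.E H m l) * H.Pi l) * H.K (l + 1) ^ m

/-- A hierarchy of depth `L`: nonempty levels, symmetric positive definite matrices and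
prolongations of full column rank. -/
def Hierarchy.IsHierarchy (H : Hierarchy) (L : ℕ) : Prop :=
  (∀ l ≤ L, 0 < H.n l) ∧ (∀ l ≤ L, (H.A l).PosDef) ∧ ∀ l < L, Function.Injective (H.P l).mulVec

/-- Condition (G3). -/
def Hierarchy.G3 (H : Hierarchy) (L : ℕ) : Prop :=
  ∃ r : ℝ, 0 < r ∧ r < 1 ∧ ∀ l < L, H.R l = r • (H.P l)ᵀ ∧
    H.R l * H.A (l + 1) * H.P l = (2 : ℝ) • H.A l

/-- Condition (R). -/
def Hierarchy.CondR (H : Hierarchy) (L : ℕ) (CR : ℝ) : Prop :=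
  ∀ l, 1 ≤ l → l ≤ L → rho (H.A l) ≤ H.Lam l ∧ H.Lam l ≤ CR * rho (H.A l)

/-- Condition (A2) with exponent `α` and constant `C`. -/
def Hierarchy.A2 (H : Hierarchy) (L : ℕ) (C α : ℝ) : Prop :=
  ∀ l < L, ∀ v : Fin (H.n (l + 1)) → ℝ,
    |ainner (H.A (l + 1)) ((1 - H.P l * H.Pi l) *ᵥ v) v| ≤
      C ^ (2 * α) / rho (H.A (l + 1)) ^ α * enorm2 (H.A (l + 1) *ᵥ v) ^ (2 * α) *
        anorm (H.A (l + 1)) v ^ (2 * (1 - α))

/-- A hierarchy of depth `L` admissible for `(CR, C, α)`. -/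
def Hierarchy.Admissible (H : Hierarchy) (L : ℕ) (CR C α : ℝ) : Prop :=
  1 ≤ L ∧ H.IsHierarchy L ∧ H.G3 L ∧ H.CondR L CR ∧ H.A2 L C α

/-- Uniform V-cycle contraction for `(CR, C, α, m)`. -/
def UniformContraction (CR C α : ℝ) (m : ℕ) : Prop :=
  ∃ δ : ℝ, δ < 1 ∧ ∀ (L : ℕ) (H : Hierarchy), H.Admissible L CR C α →
    ∀ v, anorm (H.A L) (H.E m L *ᵥ v) ≤ δ * anorm (H.A L) v

/-! ### General facts -/

section general

variable {n k : ℕ}

theorem mulVec_dot (P : Matrix (Fin n) (Fin k) ℝ) (x : Fin k → ℝ) (y : Fin n → ℝ) :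
    (P *ᵥ x) ⬝ᵥ y = x ⬝ᵥ (Pᵀ *ᵥ y) := by
  rw [dotProduct_comm, Matrix.dotProduct_mulVec, ← Matrix.mulVec_transpose, dotProduct_comm]

theorem dsn (x : Fin n → ℝ) : 0 ≤ x ⬝ᵥ x := Finset.sum_nonneg fun _ _ => mul_self_nonneg _

theorem transpose_eq {A : Matrix (Fin n) (Fin n) ℝ} (hA : A.IsHermitian) : Aᵀ = A := by
  have := hA.eq
  rwa [Matrix.conjTranspose_eq_transpose_of_trivial] at this

theorem ainner_comm {A : Matrix (Fin n) (Fin n) ℝ} (hA : A.IsHermitian) (u v : Fin n → ℝ) :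
    ainner A u v = ainner A v u := by
  unfold ainner
  rw [dotProduct_comm, mulVec_dot, transpose_eq hA]

theorem ainner_add_left (A : Matrix (Fin n) (Fin n) ℝ) (u v w : Fin n → ℝ) :
    ainner A (u + v) w = ainner A u w + ainner A v w := by
  simp [ainner, add_dotProduct]

theorem ainner_sub_left (A : Matrix (Fin n) (Fin n) ℝ) (u v w : Fin n → ℝ) :
    ainner A (u - v) w = ainner A u w - ainner A v w := by
  simp [ainner, sub_dotProduct]

theorem ainner_smul_left (A : Matrix (Fin n) (Fin n) ℝ) (c : ℝ) (v w : Fin n → ℝ) :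
    ainner A (c • v) w = c * ainner A v w := by
  simp [ainner]

theorem ainner_add_right (A : Matrix (Fin n) (Fin n) ℝ) (u v w : Fin n → ℝ) :
    ainner A u (v + w) = ainner A u v + ainner A u w := by
  simp [ainner, mulVec_add, dotProduct_add]

theorem ainner_sub_right (A : Matrix (Fin n) (Fin n) ℝ) (u v w : Fin n → ℝ) :
    ainner A u (v - w) = ainner A u v - ainner A u w := by
  simp [ainner, mulVec_sub, dotProduct_sub]

theorem ainner_smul_right (A : Matrix (Fin n) (Fin n) ℝ) (c : ℝ) (v w : Fin n → ℝ) :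
    ainner A v (c • w) = c * ainner A v w := by
  simp [ainner, mulVec_smul]

theorem ainner_nonneg {A : Matrix (Fin n) (Fin n) ℝ} (hA : A.PosDef) (v : Fin n → ℝ) :
    0 ≤ ainner A v v := by
  simpa [ainner] using hA.posSemidef.dotProduct_mulVec_nonneg v

theorem ainner_pos {A : Matrix (Fin n) (Fin n) ℝ} (hA : A.PosDef) {v : Fin n → ℝ} (hv : v ≠ 0) :
    0 < ainner A v v := by
  simpa [ainner] using hA.dotProduct_mulVec_pos hv

open scoped MatrixOrder in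
theorem poly_nonneg (A : Matrix (Fin n) (Fin n) ℝ) (hA : A.IsHermitian) (p : Polynomial ℝ)
    (hp : ∀ x ∈ spectrum ℝ A, 0 ≤ p.eval x) (v : Fin n → ℝ) :
    0 ≤ v ⬝ᵥ (Polynomial.aeval A p *ᵥ v) := by
  have h1 : 0 ≤ Polynomial.aeval A p := by
    rw [← cfc_polynomial p A hA]
    exact cfc_nonneg hp
  have := Matrix.nonneg_iff_posSemidef.1 h1
  simpa using this.dotProduct_mulVec_nonneg v

theorem spec_pos {A : Matrix (Fin n) (Fin n) ℝ} (hA : A.PosDef) {x : ℝ}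
    (hx : x ∈ spectrum ℝ A) : 0 < x := by
  rw [hA.isHermitian.spectrum_real_eq_range_eigenvalues] at hx
  obtain ⟨i, rfl⟩ := hx
  exact hA.eigenvalues_pos i

theorem rho_bdd (A : Matrix (Fin n) (Fin n) ℝ) :
    BddAbove {t : ℝ | ∃ μ : ℂ, μ ∈ spectrum ℂ (A.map (algebraMap ℝ ℂ)) ∧ t = ‖μ‖} := by
  have hfin : (spectrum ℂ (A.map (algebraMap ℝ ℂ))).Finite := Matrix.finite_spectrum _
  have : {t : ℝ | ∃ μ : ℂ, μ ∈ spectrum ℂ (A.map (algebraMap ℝ ℂ)) ∧ t = ‖μ‖} =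
      (fun μ : ℂ => ‖μ‖) '' (spectrum ℂ (A.map (algebraMap ℝ ℂ))) := by
    ext t
    constructor
    · rintro ⟨μ, h, rfl⟩; exact ⟨μ, h, rfl⟩
    · rintro ⟨μ, h, rfl⟩; exact ⟨μ, h, rfl⟩
  rw [this]
  exact (hfin.image _).bddAbove

theorem spec_le_rho {A : Matrix (Fin n) (Fin n) ℝ} {x : ℝ} (hx : x ∈ spectrum ℝ A) :
    |x| ≤ rho A := by
  apply le_csSup (rho_bdd A)
  refine ⟨(x : ℂ), ?_, by simp⟩
  rw [Matrix.mem_spectrum_iff_isRoot_charpoly] at hx ⊢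
  rw [Matrix.charpoly_map]
  exact hx.map (f := algebraMap ℝ ℂ)

theorem rho_pos {A : Matrix (Fin n) (Fin n) ℝ} (hA : A.PosDef) (hn : 0 < n) : 0 < rho A := by
  have hne : (spectrum ℝ A).Nonempty := by
    rw [hA.isHermitian.spectrum_real_eq_range_eigenvalues]
    exact ⟨_, ⟨0, hn⟩, rfl⟩
  obtain ⟨x, hx⟩ := hne
  have h1 := spec_pos hA hx
  have h2 := spec_le_rho hx
  rw [abs_of_pos h1] at h2
  linarith

/-- `‖A v‖² ≤ ρ(A) ‖v‖_A²`. -/
theorem sq_le_rho {A : Matrix (Fin n) (Fin n) ℝ} (hA : A.PosDef) (v : Fin n → ℝ) :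
    (A *ᵥ v) ⬝ᵥ (A *ᵥ v) ≤ rho A * ainner A v v := by
  have h := poly_nonneg A hA.isHermitian
    (Polynomial.C (rho A) * Polynomial.X - Polynomial.X ^ 2) (by
      intro x hx
      have h1 := spec_pos hA hx
      have h2 := spec_le_rho hx
      rw [abs_of_pos h1] at h2
      simp only [Polynomial.eval_sub, Polynomial.eval_mul, Polynomial.eval_C, Polynomial.eval_X,
        Polynomial.eval_pow]
      nlinarith) v
  simp only [map_sub, map_mul, Polynomial.aeval_C, Polynomial.aeval_X, map_pow] at h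
  rw [Matrix.sub_mulVec, dotProduct_sub, sub_nonneg] at h
  have e1 : v ⬝ᵥ (A ^ 2) *ᵥ v = (A *ᵥ v) ⬝ᵥ (A *ᵥ v) := by
    rw [pow_two, ← Matrix.mulVec_mulVec, mulVec_dot, transpose_eq hA.isHermitian]
  have e2 : v ⬝ᵥ ((algebraMap ℝ (Matrix (Fin n) (Fin n) ℝ) (rho A)) * A) *ᵥ v
      = rho A * ainner A v v := by
    rw [← Algebra.smul_def, Matrix.smul_mulVec, dotProduct_smul, smul_eq_mul, ainner]
  rw [e1, e2] at h
  exact h

/-- one variable inequality behind the smoothing property -/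
theorem one_var (m : ℕ) {t : ℝ} (h0 : 0 ≤ t) (h1 : t ≤ 1) :
    (1 - t) ^ (2 * m) * (1 + 2 * m * t) ≤ 1 := by
  have hb : 1 + 2 * m * t ≤ (1 + t) ^ (2 * m) := by
    have := one_add_mul_le_pow (show (-2 : ℝ) ≤ t by linarith) (2 * m)
    push_cast at this
    linarith
  have h2 : 0 ≤ (1 - t) ^ (2 * m) := pow_nonneg (by linarith) _
  calc (1 - t) ^ (2 * m) * (1 + 2 * m * t) ≤ (1 - t) ^ (2 * m) * (1 + t) ^ (2 * m) :=
        mul_le_mul_of_nonneg_left hb h2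
    _ = (1 - t ^ 2) ^ (2 * m) := by rw [← mul_pow]; congr 1; ring
    _ ≤ 1 := by
        apply pow_le_one₀
        · nlinarith
        · nlinarith [sq_nonneg t]

theorem K_comm (A : Matrix (Fin n) (Fin n) ℝ) (c : ℝ) (m : ℕ) :
    Commute ((1 - c • A) ^ m) A := by
  apply Commute.pow_left
  apply Commute.sub_left (Commute.one_left _)
  exact (Commute.refl A).smul_left c

theorem K_transpose {A : Matrix (Fin n) (Fin n) ℝ} (hA : A.IsHermitian) (c : ℝ) (m : ℕ) :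
    ((1 - c • A) ^ m)ᵀ = (1 - c • A) ^ m := by
  rw [Matrix.transpose_pow, Matrix.transpose_sub, Matrix.transpose_one, Matrix.transpose_smul,
    transpose_eq hA]

theorem K_adj {A : Matrix (Fin n) (Fin n) ℝ} (hA : A.IsHermitian) (c : ℝ) (m : ℕ)
    (u v : Fin n → ℝ) :
    ainner A ((1 - c • A) ^ m *ᵥ u) v = ainner A u ((1 - c • A) ^ m *ᵥ v) := by
  unfold ainner
  rw [mulVec_dot, K_transpose hA, Matrix.mulVec_mulVec, Matrix.mulVec_mulVec, (K_comm A c m).eq]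

/-- smoothing property -/
theorem smoothing {A : Matrix (Fin n) (Fin n) ℝ} (hA : A.PosDef) {Lam b c : ℝ} (m : ℕ)
    (hL0 : 0 < Lam) (hL : rho A ≤ Lam) (hb : 0 ≤ b) (hbc : c * Lam ≤ 2 * m * b)
    (v : Fin n → ℝ) :
    b * ainner A ((1 - Lam⁻¹ • A) ^ m *ᵥ v) ((1 - Lam⁻¹ • A) ^ m *ᵥ v) +
      c * ((A *ᵥ ((1 - Lam⁻¹ • A) ^ m *ᵥ v)) ⬝ᵥ (A *ᵥ ((1 - Lam⁻¹ • A) ^ m *ᵥ v))) ≤
      b * ainner A v v := by
  have h := poly_nonneg A hA.isHermitian
    (Polynomial.C b * Polynomial.X - (1 - Polynomial.C Lam⁻¹ * Polynomial.X) ^ (2 * m) *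
      (Polynomial.C b * Polynomial.X + Polynomial.C c * Polynomial.X ^ 2)) (by
      intro x hx
      have h1 := spec_pos hA hx
      have h2 := spec_le_rho hx
      rw [abs_of_pos h1] at h2
      simp only [Polynomial.eval_sub, Polynomial.eval_mul, Polynomial.eval_C, Polynomial.eval_X,
        Polynomial.eval_pow, Polynomial.eval_add, Polynomial.eval_one]
      have ht0 : 0 ≤ Lam⁻¹ * x := by positivity
      have ht1 : Lam⁻¹ * x ≤ 1 := by
        rw [inv_mul_le_iff₀ hL0]; linarith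
      have h3 := one_var m ht0 ht1
      have h4 : 0 ≤ (1 - Lam⁻¹ * x) ^ (2 * m) := pow_nonneg (by linarith) _
      have h5 : b + c * x ≤ b * (1 + 2 * m * (Lam⁻¹ * x)) := by
        have : c * x = (c * Lam) * (Lam⁻¹ * x) := by field_simp
        rw [this]
        nlinarith
      have h6 : (1 - Lam⁻¹ * x) ^ (2 * m) * (b * x + c * x ^ 2) ≤ b * x := by
        calc (1 - Lam⁻¹ * x) ^ (2 * m) * (b * x + c * x ^ 2)
            = x * ((1 - Lam⁻¹ * x) ^ (2 * m) * (b + c * x)) := by ring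
          _ ≤ x * ((1 - Lam⁻¹ * x) ^ (2 * m) * (b * (1 + 2 * m * (Lam⁻¹ * x)))) := by
              apply mul_le_mul_of_nonneg_left _ h1.le
              exact mul_le_mul_of_nonneg_left h5 h4
          _ = x * b * ((1 - Lam⁻¹ * x) ^ (2 * m) * (1 + 2 * m * (Lam⁻¹ * x))) := by ring
          _ ≤ x * b * 1 := by
              apply mul_le_mul_of_nonneg_left h3
              positivity
          _ = b * x := by ring
      linarith) v
  simp only [map_sub, map_mul, map_add, map_one, Polynomial.aeval_C, Polynomial.aeval_X,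
    map_pow, ← Algebra.smul_def] at h
  rw [Matrix.sub_mulVec, dotProduct_sub, sub_nonneg] at h
  set S := (1 - Lam⁻¹ • A) ^ m with hS
  have hSt : Sᵀ = S := K_transpose hA.isHermitian _ _
  have hSc : S * A = A * S := (K_comm A _ m).eq
  have hAt := transpose_eq hA.isHermitian
  have e0 : (1 - Lam⁻¹ • A) ^ (2 * m) = S * S := by rw [hS, ← pow_add, two_mul]
  have e1 : v ⬝ᵥ (b • A) *ᵥ v = b * ainner A v v := by
    rw [Matrix.smul_mulVec, dotProduct_smul, smul_eq_mul, ainner]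
  have e2 : v ⬝ᵥ ((1 - Lam⁻¹ • A) ^ (2 * m) * (b • A + c • A ^ 2)) *ᵥ v =
      b * ainner A (S *ᵥ v) (S *ᵥ v) + c * ((A *ᵥ (S *ᵥ v)) ⬝ᵥ (A *ᵥ (S *ᵥ v))) := by
    rw [e0]
    unfold ainner
    rw [mulVec_dot A, mulVec_dot S, mulVec_dot S, hSt, hAt]
    simp only [Matrix.mulVec_mulVec]
    have e3 : S * S * (b • A + c • A ^ 2) = b • (S * (A * S)) + c • (S * (A * (A * S))) := by
      rw [mul_add, Matrix.mul_smul, Matrix.mul_smul, ← hSc, pow_two]
      congr 2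
      · rw [Matrix.mul_assoc]
      · rw [← Matrix.mul_assoc A S A, ← hSc]; simp only [Matrix.mul_assoc]
    rw [e3, Matrix.add_mulVec, dotProduct_add, Matrix.smul_mulVec, Matrix.smul_mulVec,
      dotProduct_smul, dotProduct_smul, smul_eq_mul, smul_eq_mul]
  rw [e1, e2] at h
  exact h

/-- from a bound of the quadratic form to a bound of the norm -/
theorem norm_of_form {A : Matrix (Fin n) (Fin n) ℝ} (hA : A.PosDef)
    (E : Matrix (Fin n) (Fin n) ℝ) (hE : ∀ u v, ainner A (E *ᵥ u) v = ainner A u (E *ᵥ v))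
    {δ : ℝ} (hδ : 0 < δ) (h : ∀ v, |ainner A (E *ᵥ v) v| ≤ δ * ainner A v v) (u : Fin n → ℝ) :
    anorm A (E *ᵥ u) ≤ δ * anorm A u := by
  have key : ∀ v w, 2 * ainner A (E *ᵥ v) w ≤ δ * (ainner A v v + ainner A w w) := by
    intro v w
    have h1 := (abs_le.1 (h (v + w))).2
    have h2 := (abs_le.1 (h (v - w))).1
    have hvw : ainner A (E *ᵥ w) v = ainner A (E *ᵥ v) w := by
      rw [hE w v, ainner_comm hA.isHermitian]
    simp only [Matrix.mulVec_add, Matrix.mulVec_sub, ainner_add_left, ainner_add_right,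
      ainner_sub_left, ainner_sub_right, hvw] at h1 h2
    have := ainner_comm hA.isHermitian v w
    linarith
  have h3 := key u (δ⁻¹ • (E *ᵥ u))
  rw [ainner_smul_right, ainner_smul_right, ainner_smul_left] at h3
  have h4 : ainner A (E *ᵥ u) (E *ᵥ u) ≤ δ ^ 2 * ainner A u u := by
    have h5 : δ * (ainner A u u + δ⁻¹ * (δ⁻¹ * ainner A (E *ᵥ u) (E *ᵥ u))) =
        δ * ainner A u u + δ⁻¹ * ainner A (E *ᵥ u) (E *ᵥ u) := by field_simp
    rw [h5] at h3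
    have h6 : δ⁻¹ * ainner A (E *ᵥ u) (E *ᵥ u) ≤ δ * ainner A u u := by linarith
    rw [inv_mul_le_iff₀ hδ] at h6
    nlinarith
  unfold anorm
  calc Real.sqrt (ainner A (E *ᵥ u) (E *ᵥ u)) ≤ Real.sqrt (δ ^ 2 * ainner A u u) :=
        Real.sqrt_le_sqrt h4
    _ = δ * Real.sqrt (ainner A u u) := by
        rw [Real.sqrt_mul (sq_nonneg δ), Real.sqrt_sq hδ.le]

end general

/-! ### One level -/

section level

variable {n k : ℕ} {A : Matrix (Fin n) (Fin n) ℝ} {A' : Matrix (Fin k) (Fin k) ℝ}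
  {P : Matrix (Fin n) (Fin k) ℝ} {r : ℝ}

theorem Pi_mul (hA' : A'.PosDef) (hG : (r • Pᵀ) * A * P = (2 : ℝ) • A') :
    (A'⁻¹ * (r • Pᵀ) * A) * P = (2 : ℝ) • (1 : Matrix (Fin k) (Fin k) ℝ) := by
  have h : (A'⁻¹ * (r • Pᵀ) * A) * P = A'⁻¹ * ((r • Pᵀ) * A * P) := by
    simp only [Matrix.mul_assoc]
  rw [h, hG, Matrix.mul_smul, Matrix.nonsing_inv_mul _ ((Matrix.isUnit_iff_isUnit_det _).1 hA'.isUnit)]

theorem mul_Pi (hA' : A'.PosDef) :
    A' * (A'⁻¹ * (r • Pᵀ) * A) = r • (Pᵀ * A) := by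
  rw [← Matrix.mul_assoc, ← Matrix.mul_assoc,
    Matrix.mul_nonsing_inv _ ((Matrix.isUnit_iff_isUnit_det _).1 hA'.isUnit), Matrix.one_mul,
    Matrix.smul_mul]

theorem form_level (hA' : A'.PosDef) (hr : 0 < r) (x : Fin k → ℝ) (w : Fin n → ℝ) :
    ainner A (P *ᵥ x) w = r⁻¹ * ainner A' x ((A'⁻¹ * (r • Pᵀ) * A) *ᵥ w) := by
  unfold ainner
  rw [Matrix.mulVec_mulVec, mul_Pi hA', Matrix.smul_mulVec, dotProduct_smul, smul_eq_mul,
    mulVec_dot, Matrix.mulVec_mulVec, ← mul_assoc, inv_mul_cancel₀ hr.ne', one_mul]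

theorem split3 (P : Matrix (Fin n) (Fin k) ℝ) (G : Matrix (Fin k) (Fin k) ℝ)
    (Q : Matrix (Fin k) (Fin n) ℝ) (u : Fin n → ℝ) :
    (1 - P * G * Q) *ᵥ u = u - P *ᵥ (G *ᵥ (Q *ᵥ u)) := by
  rw [Matrix.sub_mulVec, Matrix.one_mulVec, ← Matrix.mulVec_mulVec, ← Matrix.mulVec_mulVec]

theorem split2 (P : Matrix (Fin n) (Fin k) ℝ)
    (Q : Matrix (Fin k) (Fin n) ℝ) (u : Fin n → ℝ) :
    (1 - P * Q) *ᵥ u = u - P *ᵥ (Q *ᵥ u) := by
  rw [Matrix.sub_mulVec, Matrix.one_mulVec, ← Matrix.mulVec_mulVec]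

/-- self-adjointness is inherited -/
theorem selfadj_level (hA : A.PosDef) (hA' : A'.PosDef) (hr : 0 < r)
    (E' : Matrix (Fin k) (Fin k) ℝ)
    (hE' : ∀ u v, ainner A' (E' *ᵥ u) v = ainner A' u (E' *ᵥ v)) (u v : Fin n → ℝ) :
    ainner A ((1 - P * (1 - E') * (A'⁻¹ * (r • Pᵀ) * A)) *ᵥ u) v =
      ainner A u ((1 - P * (1 - E') * (A'⁻¹ * (r • Pᵀ) * A)) *ᵥ v) := by
  rw [ainner_comm hA.isHermitian u, split3, split3, ainner_sub_left, ainner_sub_left,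
    form_level (A := A) (P := P) hA' hr, form_level (A := A) (P := P) hA' hr, ainner_comm hA.isHermitian v u]
  congr 2
  rw [Matrix.sub_mulVec, Matrix.sub_mulVec, Matrix.one_mulVec, Matrix.one_mulVec,
    ainner_sub_left, ainner_sub_left, hE', ainner_comm hA'.isHermitian
    ((A'⁻¹ * (r • Pᵀ) * A) *ᵥ u) ((A'⁻¹ * (r • Pᵀ) * A) *ᵥ v),
    ainner_comm hA'.isHermitian ((A'⁻¹ * (r • Pᵀ) * A) *ᵥ u)]

theorem form_split (hA' : A'.PosDef) (hr : 0 < r)
    (E' : Matrix (Fin k) (Fin k) ℝ) (w : Fin n → ℝ) :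
    ainner A ((1 - P * (1 - E') * (A'⁻¹ * (r • Pᵀ) * A)) *ᵥ w) w =
      ainner A ((1 - P * (A'⁻¹ * (r • Pᵀ) * A)) *ᵥ w) w +
      r⁻¹ * ainner A' (E' *ᵥ ((A'⁻¹ * (r • Pᵀ) * A) *ᵥ w)) ((A'⁻¹ * (r • Pᵀ) * A) *ᵥ w) := by
  rw [split3, split2, ainner_sub_left, ainner_sub_left, form_level (A := A) (P := P) hA' hr, form_level (A := A) (P := P) hA' hr,
    Matrix.sub_mulVec, Matrix.one_mulVec, ainner_sub_left]
  ring

theorem form_refl (hA' : A'.PosDef) (hr : 0 < r) (w : Fin n → ℝ) :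
    ainner A ((1 - P * (A'⁻¹ * (r • Pᵀ) * A)) *ᵥ w) w = ainner A w w -
      r⁻¹ * ainner A' ((A'⁻¹ * (r • Pᵀ) * A) *ᵥ w) ((A'⁻¹ * (r • Pᵀ) * A) *ᵥ w) := by
  rw [split2, ainner_sub_left, form_level hA' hr]

theorem refl_sq (hA' : A'.PosDef) (hG : (r • Pᵀ) * A * P = (2 : ℝ) • A') (w : Fin n → ℝ) :
    (1 - P * (A'⁻¹ * (r • Pᵀ) * A)) *ᵥ ((1 - P * (A'⁻¹ * (r • Pᵀ) * A)) *ᵥ w) = w := by
  have h := Pi_mul hA' hG
  set Q := A'⁻¹ * (r • Pᵀ) * A with hQ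
  rw [Matrix.mulVec_mulVec]
  have : (1 - P * Q) * (1 - P * Q) = 1 := by
    have h2 : P * Q * (P * Q) = (2 : ℝ) • (P * Q) := by
      calc P * Q * (P * Q) = P * (Q * P) * Q := by simp only [Matrix.mul_assoc]
        _ = (2 : ℝ) • (P * Q) := by rw [h, Matrix.mul_smul, Matrix.mul_one, Matrix.smul_mul]
    rw [mul_sub, sub_mul, sub_mul, h2, one_mul, mul_one, one_mul, two_smul]
    abel
  rw [this, Matrix.one_mulVec]

theorem refl_adj (hA : A.PosDef) (hA' : A'.PosDef) (hr : 0 < r) (u v : Fin n → ℝ) :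
    ainner A ((1 - P * (A'⁻¹ * (r • Pᵀ) * A)) *ᵥ u) v =
      ainner A u ((1 - P * (A'⁻¹ * (r • Pᵀ) * A)) *ᵥ v) := by
  have := selfadj_level (A := A) (P := P) hA hA' hr 0 (by intro u v; simp [ainner]) u v
  simpa using this

/-- the quadratic form of the reflection is at most the energy -/
theorem refl_form_le (hA : A.PosDef) (hA' : A'.PosDef) (hr : 0 < r)
    (hG : (r • Pᵀ) * A * P = (2 : ℝ) • A') (v : Fin n → ℝ) :
    |ainner A ((1 - P * (A'⁻¹ * (r • Pᵀ) * A)) *ᵥ v) v| ≤ ainner A v v := by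
  set T := 1 - P * (A'⁻¹ * (r • Pᵀ) * A) with hT
  have h1 : ainner A (T *ᵥ v) (T *ᵥ v) = ainner A v v := by
    rw [refl_adj hA hA' hr, refl_sq hA' hG]
  have h2 := ainner_nonneg hA (v + T *ᵥ v)
  have h3 := ainner_nonneg hA (v - T *ᵥ v)
  have h4 := ainner_comm hA.isHermitian v (T *ᵥ v)
  simp only [ainner_add_left, ainner_add_right, ainner_sub_left, ainner_sub_right] at h2 h3
  rw [abs_le]
  constructor <;> linarith

/-- One step of the induction. -/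
theorem step_bound (hA : A.PosDef) (hA' : A'.PosDef) (hr : 0 < r)
    {Lam D δ : ℝ} (m : ℕ) (hL0 : 0 < Lam) (hL : rho A ≤ Lam)
    (hD : ∀ v, |ainner A ((1 - P * (A'⁻¹ * (r • Pᵀ) * A)) *ᵥ v) v| ≤
      D * ((A *ᵥ v) ⬝ᵥ (A *ᵥ v)))
    (hD0 : 0 ≤ D) (hδ0 : 0 ≤ δ) (hδ1 : δ ≤ 1) (hc : (1 + δ) * D * Lam ≤ 2 * m * δ)
    (E' : Matrix (Fin k) (Fin k) ℝ)
    (hE' : ∀ v, |ainner A' (E' *ᵥ v) v| ≤ δ * ainner A' v v) (v : Fin n → ℝ) :
    |ainner A (((1 - Lam⁻¹ • A) ^ m * (1 - P * (1 - E') * (A'⁻¹ * (r • Pᵀ) * A)) *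
      (1 - Lam⁻¹ • A) ^ m) *ᵥ v) v| ≤ δ * ainner A v v := by
  have e1 : ainner A (((1 - Lam⁻¹ • A) ^ m * (1 - P * (1 - E') * (A'⁻¹ * (r • Pᵀ) * A)) *
      (1 - Lam⁻¹ • A) ^ m) *ᵥ v) v = ainner A ((1 - P * (1 - E') * (A'⁻¹ * (r • Pᵀ) * A)) *ᵥ
      ((1 - Lam⁻¹ • A) ^ m *ᵥ v)) ((1 - Lam⁻¹ • A) ^ m *ᵥ v) := by
    rw [← Matrix.mulVec_mulVec, ← Matrix.mulVec_mulVec, K_adj hA.isHermitian]
  rw [e1]
  have hs := smoothing hA m hL0 hL hδ0 hc v
  set w := (1 - Lam⁻¹ • A) ^ m *ᵥ v with hw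
  rw [form_split hA' hr]
  have h1 := hD w
  rw [form_refl hA' hr] at h1 ⊢
  have h2 := hE' ((A'⁻¹ * (r • Pᵀ) * A) *ᵥ w)
  set N := ainner A w w with hN
  set q' := ainner A' ((A'⁻¹ * (r • Pᵀ) * A) *ᵥ w) ((A'⁻¹ * (r • Pᵀ) * A) *ᵥ w) with hq'
  set f := ainner A' (E' *ᵥ ((A'⁻¹ * (r • Pᵀ) * A) *ᵥ w)) ((A'⁻¹ * (r • Pᵀ) * A) *ᵥ w) with hf
  set Z := (A *ᵥ w) ⬝ᵥ (A *ᵥ w) with hZ
  have hZ0 : 0 ≤ Z := by
    rw [hZ]; exact Finset.sum_nonneg fun _ _ => mul_self_nonneg _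
  have hri : 0 < r⁻¹ := inv_pos.2 hr
  rw [abs_le] at h1 h2 ⊢
  have h3 : r⁻¹ * f ≤ δ * (r⁻¹ * q') := by nlinarith [h2.2]
  have h4 : -(δ * (r⁻¹ * q')) ≤ r⁻¹ * f := by nlinarith [h2.1]
  have hDZ : 0 ≤ D * Z := mul_nonneg hD0 hZ0
  constructor
  · have h5 : -((1 + δ) * (D * Z)) ≤ (1 + δ) * (N - r⁻¹ * q') := by nlinarith [h1.1]
    nlinarith
  · have h5 : (1 - δ) * (N - r⁻¹ * q') ≤ (1 - δ) * (D * Z) :=
      mul_le_mul_of_nonneg_left h1.2 (by linarith)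
    have h6 : 0 ≤ δ * (D * Z) := mul_nonneg hδ0 hDZ
    nlinarith

end level

/-! ### The positive part -/

theorem contraction_of_bound (H : Hierarchy) (L : ℕ) {CR C2 : ℝ} {m : ℕ}
    (hH : H.IsHierarchy L) (hG : H.G3 L) (hR : H.CondR L CR) (hC2 : 0 < C2) (hCR : 0 < CR)
    (hm : CR * C2 < m)
    (hB : ∀ l < L, ∀ v : Fin (H.n (l + 1)) → ℝ,
      |ainner (H.A (l + 1)) ((1 - H.P l * H.Pi l) *ᵥ v) v| ≤
        C2 / rho (H.A (l + 1)) * ((H.A (l + 1) *ᵥ v) ⬝ᵥ (H.A (l + 1) *ᵥ v))) :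
    ∀ l ≤ L, (∀ u v, ainner (H.A l) (H.E m l *ᵥ u) v = ainner (H.A l) u (H.E m l *ᵥ v)) ∧
      ∀ v, |ainner (H.A l) (H.E m l *ᵥ v) v| ≤
        (CR * C2 / (2 * m - CR * C2)) * ainner (H.A l) v v := by
  obtain ⟨r, hr0, hr1, hG⟩ := hG
  have hγ : 0 < CR * C2 := mul_pos hCR hC2
  have hden : 0 < 2 * (m : ℝ) - CR * C2 := by linarith
  set δ := CR * C2 / (2 * m - CR * C2) with hδ
  have hδ0 : 0 ≤ δ := by positivity
  have hδ1 : δ ≤ 1 := by rw [hδ, div_le_one hden]; linarith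
  intro l
  induction l with
  | zero =>
    intro _
    constructor
    · intro u v; simp [Hierarchy.E, ainner]
    · intro v
      have := ainner_nonneg (hH.2.1 0 (Nat.zero_le _)) v
      have h0 : ainner (H.A 0) (H.E m 0 *ᵥ v) v = 0 := by simp [Hierarchy.E, ainner]
      rw [h0, abs_zero]
      positivity
  | succ l ih =>
    intro hl
    obtain ⟨ih1, ih2⟩ := ih (by omega)
    have hA := hH.2.1 (l + 1) hl
    have hA' := hH.2.1 l (by omega)
    obtain ⟨hRl, hGl⟩ := hG l (by omega)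
    have hPi : H.Pi l = (H.A l)⁻¹ * (r • (H.P l)ᵀ) * H.A (l + 1) := by
      rw [Hierarchy.Pi, hRl]
    have hGl' : (r • (H.P l)ᵀ) * H.A (l + 1) * H.P l = (2 : ℝ) • H.A l := by
      rw [← hRl]; exact hGl
    have hρ := rho_pos hA (hH.1 (l + 1) hl)
    obtain ⟨hR1, hR2⟩ := hR (l + 1) (by omega) hl
    have hL0 : 0 < H.Lam (l + 1) := by linarith
    have hE : H.E m (l + 1) = (1 - (H.Lam (l + 1))⁻¹ • H.A (l + 1)) ^ m *
        (1 - H.P l * (1 - H.E m l) * ((H.A l)⁻¹ * (r • (H.P l)ᵀ) * H.A (l + 1))) *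
        (1 - (H.Lam (l + 1))⁻¹ • H.A (l + 1)) ^ m := by
      rw [Hierarchy.E, hPi]; rfl
    have hBl := hB l (by omega)
    rw [hPi] at hBl
    rw [hE]
    constructor
    · intro u v
      rw [← Matrix.mulVec_mulVec, ← Matrix.mulVec_mulVec, ← Matrix.mulVec_mulVec,
        ← Matrix.mulVec_mulVec, K_adj hA.isHermitian, selfadj_level hA hA' hr0 _ ih1,
        ← K_adj hA.isHermitian]
    · intro v
      refine step_bound hA hA' hr0 m hL0 hR1 hBl (by positivity) hδ0 hδ1 ?_ _ ih2 v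
      have h1 : C2 / rho (H.A (l + 1)) * H.Lam (l + 1) ≤ CR * C2 := by
        rw [div_mul_eq_mul_div, div_le_iff₀ hρ]
        nlinarith
      calc (1 + δ) * (C2 / rho (H.A (l + 1))) * H.Lam (l + 1)
          = (1 + δ) * (C2 / rho (H.A (l + 1)) * H.Lam (l + 1)) := by ring
        _ ≤ (1 + δ) * (CR * C2) := mul_le_mul_of_nonneg_left h1 (by linarith)
        _ = 2 * m * δ := by
            rw [hδ]; field_simp; ring

/-- (A2) with exponent in `(1/2, 1]` implies (A2) with exponent 1. -/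
theorem A2_one {n k : ℕ} {A : Matrix (Fin n) (Fin n) ℝ} {A' : Matrix (Fin k) (Fin k) ℝ}
    {P : Matrix (Fin n) (Fin k) ℝ} {r : ℝ} (hA : A.PosDef) (hA' : A'.PosDef) (hr : 0 < r)
    (hG : (r • Pᵀ) * A * P = (2 : ℝ) • A') (hρ : 0 < rho A) {C α : ℝ} (hC : 0 < C)
    (hα : 1 / 2 < α) (hα1 : α ≤ 1)
    (h : ∀ v, |ainner A ((1 - P * (A'⁻¹ * (r • Pᵀ) * A)) *ᵥ v) v| ≤
      C ^ (2 * α) / rho A ^ α * enorm2 (A *ᵥ v) ^ (2 * α) * anorm A v ^ (2 * (1 - α)))
    (v : Fin n → ℝ) :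
    |ainner A ((1 - P * (A'⁻¹ * (r • Pᵀ) * A)) *ᵥ v) v| ≤
      C ^ (2 * α) * (3 * C ^ (2 * α)) ^ ((2 - 2 * α) / (2 * α - 1)) / rho A *
        ((A *ᵥ v) ⬝ᵥ (A *ᵥ v)) := by
  have hsq : ∀ w, |ainner A ((1 - P * (A'⁻¹ * (r • Pᵀ) * A)) *ᵥ w) w| ≤
      C ^ (2 * α) / rho A ^ α * ((A *ᵥ w) ⬝ᵥ (A *ᵥ w)) ^ α * (ainner A w w) ^ (1 - α) := by
    intro w
    have h1 := h w
    have e1 : enorm2 (A *ᵥ w) ^ (2 * α) = ((A *ᵥ w) ⬝ᵥ (A *ᵥ w)) ^ α := by
      unfold enorm2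
      rw [Real.sqrt_eq_rpow, ← Real.rpow_mul (dsn (A *ᵥ w))]
      congr 1; ring
    have e2 : anorm A w ^ (2 * (1 - α)) = (ainner A w w) ^ (1 - α) := by
      unfold anorm
      rw [Real.sqrt_eq_rpow, ← Real.rpow_mul (ainner_nonneg hA w)]
      congr 1; ring
    rwa [e1, e2] at h1
  by_cases hv : v = 0
  · subst hv; simp [ainner]
  set T := 1 - P * (A'⁻¹ * (r • Pᵀ) * A) with hT
  set ρ := rho A with hρdef
  have hN : 0 < ainner A v v := ainner_pos hA hv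
  have hTT : T *ᵥ (T *ᵥ v) = v := refl_sq hA' hG v
  have hNw : ainner A (T *ᵥ v) (T *ᵥ v) = ainner A v v := by
    rw [hT, refl_adj hA hA' hr, refl_sq hA' hG]
  have hQv := sq_le_rho hA v
  have hQw := sq_le_rho hA (T *ᵥ v)
  rw [hNw] at hQw
  have hAvne : 0 < (A *ᵥ v) ⬝ᵥ (A *ᵥ v) := by
    have h0 : 0 ≤ (A *ᵥ v) ⬝ᵥ (A *ᵥ v) := Finset.sum_nonneg fun _ _ => mul_self_nonneg _
    rcases h0.lt_or_eq with h0 | h0
    · exact h0
    · exfalso
      have : A *ᵥ v = 0 := by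
        have := (dotProduct_self_eq_zero (v := A *ᵥ v)).1 h0.symm
        exact this
      rw [ainner, this] at hN
      simp at hN
  set N := ainner A v v with hNdef
  set Q := (A *ᵥ v) ⬝ᵥ (A *ᵥ v) with hQdef
  set σ := Q / (ρ * N) with hσ
  have hρN : 0 < ρ * N := mul_pos hρ hN
  have hσ0 : 0 < σ := div_pos hAvne hρN
  have hσ1 : σ ≤ 1 := by rw [hσ, div_le_one hρN]; exact hQv
  have hQσ : Q = σ * (ρ * N) := by rw [hσ]; field_simp
  set s := Real.sqrt σ with hs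
  have hs0 : 0 < s := Real.sqrt_pos.2 hσ0
  have hss : s * s = σ := Real.mul_self_sqrt hσ0.le
  have hs1 : s ≤ 1 := by rw [hs]; exact Real.sqrt_le_one.2 hσ1
  set w := T *ᵥ v with hw
  set F := ainner A w v with hF
  have hCp : 0 < C ^ (2 * α) := Real.rpow_pos_of_pos hC _
  -- bound of F
  have hFb : |F| ≤ C ^ (2 * α) * σ ^ α * N := by
    refine (hsq v).trans (le_of_eq ?_)
    rw [← hNdef, ← hQdef, hQσ, Real.mul_rpow hσ0.le hρN.le, Real.mul_rpow hρ.le hN.le]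
    have e1 : N ^ α * N ^ (1 - α) = N := by
      rw [← Real.rpow_add hN]; simp
    have e2 : ρ ^ α ≠ 0 := (Real.rpow_pos_of_pos hρ _).ne'
    calc C ^ (2 * α) / ρ ^ α * (σ ^ α * (ρ ^ α * N ^ α)) * N ^ (1 - α)
        = C ^ (2 * α) * σ ^ α * (N ^ α * N ^ (1 - α)) := by field_simp
      _ = _ := by rw [e1]
  -- test vector
  have hz := hsq (v + s • w)
  have hvw : ainner A v w = F := by rw [hF, ainner_comm hA.isHermitian]
  have hTz : T *ᵥ (v + s • w) = w + s • v := by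
    rw [Matrix.mulVec_add, Matrix.mulVec_smul, hTT]
  have e3 : ainner A (T *ᵥ (v + s • w)) (v + s • w) = (1 + s * s) * F + 2 * s * N := by
    rw [hTz]
    simp only [ainner_add_left, ainner_add_right, ainner_smul_left, ainner_smul_right]
    rw [hNw, hvw]
    ring
  have e4 : (A *ᵥ (v + s • w)) ⬝ᵥ (A *ᵥ (v + s • w)) ≤ 4 * (σ * (ρ * N)) := by
    have h1 : (A *ᵥ (v + s • w)) ⬝ᵥ (A *ᵥ (v + s • w)) + (A *ᵥ (v - s • w)) ⬝ᵥ (A *ᵥ (v - s • w))
        = 2 * Q + 2 * (s * s) * ((A *ᵥ w) ⬝ᵥ (A *ᵥ w)) := by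
      rw [Matrix.mulVec_add, Matrix.mulVec_sub, Matrix.mulVec_smul]
      simp only [add_dotProduct, dotProduct_add, sub_dotProduct, dotProduct_sub, smul_dotProduct,
        dotProduct_smul, smul_eq_mul]
      ring
    have h2 : 0 ≤ (A *ᵥ (v - s • w)) ⬝ᵥ (A *ᵥ (v - s • w)) :=
      Finset.sum_nonneg fun _ _ => mul_self_nonneg _
    have h3 : (s * s) * ((A *ᵥ w) ⬝ᵥ (A *ᵥ w)) ≤ σ * (ρ * N) := by
      rw [hss]; exact mul_le_mul_of_nonneg_left hQw hσ0.le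
    linarith
  have e5 : ainner A (v + s • w) (v + s • w) ≤ 4 * N := by
    have h1 : ainner A (v + s • w) (v + s • w) + ainner A (v - s • w) (v - s • w) =
        2 * N + 2 * (s * s) * N := by
      simp only [ainner_add_left, ainner_add_right, ainner_sub_left, ainner_sub_right,
        ainner_smul_left, ainner_smul_right]
      rw [hNw]
      ring
    have h2 := ainner_nonneg hA (v - s • w)
    have h3 : (s * s) * N ≤ 1 * N := by
      rw [hss]; exact mul_le_mul_of_nonneg_right hσ1 hN.le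
    linarith
  have e6 : (1 + s * s) * F + 2 * s * N ≤ 4 * C ^ (2 * α) * σ ^ α * N := by
    rw [e3] at hz
    refine (le_abs_self _).trans (hz.trans ?_)
    have hα0 : 0 ≤ α := by linarith
    have g1 : ((A *ᵥ (v + s • w)) ⬝ᵥ (A *ᵥ (v + s • w))) ^ α ≤ (4 * (σ * (ρ * N))) ^ α :=
      Real.rpow_le_rpow (Finset.sum_nonneg fun _ _ => mul_self_nonneg _) e4 hα0
    have g2 : (ainner A (v + s • w) (v + s • w)) ^ (1 - α) ≤ (4 * N) ^ (1 - α) :=
      Real.rpow_le_rpow (ainner_nonneg hA _) e5 (by linarith)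
    have g3 : 0 ≤ C ^ (2 * α) / ρ ^ α := by positivity
    calc C ^ (2 * α) / ρ ^ α * ((A *ᵥ (v + s • w)) ⬝ᵥ (A *ᵥ (v + s • w))) ^ α *
          (ainner A (v + s • w) (v + s • w)) ^ (1 - α)
        ≤ C ^ (2 * α) / ρ ^ α * (4 * (σ * (ρ * N))) ^ α * (4 * N) ^ (1 - α) := by
          apply mul_le_mul (mul_le_mul_of_nonneg_left g1 g3) g2
            (Real.rpow_nonneg (ainner_nonneg hA _) _)
          positivity
      _ = 4 * C ^ (2 * α) * σ ^ α * N := by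
          rw [Real.mul_rpow (by norm_num) (by positivity), Real.mul_rpow hσ0.le hρN.le,
            Real.mul_rpow hρ.le hN.le, Real.mul_rpow (by norm_num) hN.le]
          have a1 : N ^ α * N ^ (1 - α) = N := by
            rw [← Real.rpow_add hN]; simp
          have a2 : (4 : ℝ) ^ α * (4 : ℝ) ^ (1 - α) = 4 := by
            rw [← Real.rpow_add (by norm_num)]; simp
          have a3 : ρ ^ α ≠ 0 := (Real.rpow_pos_of_pos hρ _).ne'
          calc C ^ (2 * α) / ρ ^ α * (4 ^ α * (σ ^ α * (ρ ^ α * N ^ α))) *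
                (4 ^ (1 - α) * N ^ (1 - α))
              = C ^ (2 * α) * σ ^ α * (4 ^ α * 4 ^ (1 - α)) * (N ^ α * N ^ (1 - α)) := by
                field_simp
            _ = _ := by rw [a1, a2]; ring
  -- conclusion on σ
  have e7 : 2 * s ≤ 6 * C ^ (2 * α) * σ ^ α := by
    have h1 : -|F| ≤ F := neg_abs_le F
    have h2 : 2 * s * N ≤ 4 * C ^ (2 * α) * σ ^ α * N + (1 + s * s) * |F| := by
      have : (1 + s * s) * (-|F|) ≤ (1 + s * s) * F :=
        mul_le_mul_of_nonneg_left h1 (by positivity)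
      linarith
    have h3 : (1 + s * s) * |F| ≤ 2 * (C ^ (2 * α) * σ ^ α * N) := by
      apply mul_le_mul _ hFb (abs_nonneg _) (by norm_num)
      rw [hss]; linarith
    have h4 : 2 * s * N ≤ 6 * C ^ (2 * α) * σ ^ α * N := by linarith
    exact le_of_mul_le_mul_right h4 hN
  have hσα : 0 < σ ^ (α - 1 / 2) := Real.rpow_pos_of_pos hσ0 _
  have e8 : 1 ≤ 3 * C ^ (2 * α) * σ ^ (α - 1 / 2) := by
    have h1 : σ ^ α = s * σ ^ (α - 1 / 2) := by
      rw [hs, Real.sqrt_eq_rpow, ← Real.rpow_add hσ0]; congr 1; ring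
    rw [h1] at e7
    have h2 : s * 1 ≤ s * (3 * C ^ (2 * α) * σ ^ (α - 1 / 2)) := by linarith
    exact le_of_mul_le_mul_left h2 hs0
  -- final
  have e9 : σ ^ (α - 1) ≤ (3 * C ^ (2 * α)) ^ ((2 - 2 * α) / (2 * α - 1)) := by
    have h1 : (σ ^ (α - 1 / 2))⁻¹ ≤ 3 * C ^ (2 * α) := by
      rw [inv_le_comm₀ hσα (by positivity), inv_le_iff_one_le_mul₀ (by positivity)]
      linarith
    have h2 : σ ^ (α - 1) = ((σ ^ (α - 1 / 2))⁻¹) ^ ((2 - 2 * α) / (2 * α - 1)) := by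
      rw [← Real.rpow_neg hσ0.le, ← Real.rpow_mul hσ0.le]
      congr 1
      have : 2 * α - 1 ≠ 0 := by linarith
      rw [mul_div_assoc', eq_div_iff this]
      ring
    rw [h2]
    apply Real.rpow_le_rpow (by positivity) h1
    apply div_nonneg <;> linarith
  calc |F| ≤ C ^ (2 * α) * σ ^ α * N := hFb
    _ = C ^ (2 * α) * σ ^ (α - 1) * (σ * N) := by
        have : σ ^ α = σ ^ (α - 1) * σ := by
          rw [← Real.rpow_add_one hσ0.ne']; congr 1; ring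
        rw [this]; ring
    _ ≤ C ^ (2 * α) * (3 * C ^ (2 * α)) ^ ((2 - 2 * α) / (2 * α - 1)) * (σ * N) := by
        apply mul_le_mul_of_nonneg_right _ (by positivity)
        exact mul_le_mul_of_nonneg_left e9 hCp.le
    _ = C ^ (2 * α) * (3 * C ^ (2 * α)) ^ ((2 - 2 * α) / (2 * α - 1)) / ρ * Q := by
        rw [hQσ]; field_simp

/-- For `1/2 < α ≤ 1` there is a finite threshold. -/
theorem positive {CR C α : ℝ} (hCR : 1 ≤ CR) (hC : 0 < C) (hα : 1 / 2 < α) (hα1 : α ≤ 1) {m : ℕ}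
    (hm : CR * (C ^ (2 * α) * (3 * C ^ (2 * α)) ^ ((2 - 2 * α) / (2 * α - 1))) < m) :
    UniformContraction CR C α m := by
  have hCp : 0 < C ^ (2 * α) := Real.rpow_pos_of_pos hC _
  set C2 := C ^ (2 * α) * (3 * C ^ (2 * α)) ^ ((2 - 2 * α) / (2 * α - 1)) with hC2def
  have hC2 : 0 < C2 := by positivity
  have hγ : 0 < CR * C2 := by positivity
  have hden : 0 < 2 * (m : ℝ) - CR * C2 := by linarith
  refine ⟨CR * C2 / (2 * m - CR * C2), ?_, ?_⟩
  · rw [div_lt_one hden]; linarith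
  · intro L H hadm v
    obtain ⟨hL1, hH, hG, hR, hA2⟩ := hadm
    have hB : ∀ l < L, ∀ v : Fin (H.n (l + 1)) → ℝ,
        |ainner (H.A (l + 1)) ((1 - H.P l * H.Pi l) *ᵥ v) v| ≤
        C2 / rho (H.A (l + 1)) * ((H.A (l + 1) *ᵥ v) ⬝ᵥ (H.A (l + 1) *ᵥ v)) := by
      intro l hl v
      obtain ⟨r, hr0, hr1, hG'⟩ := hG
      obtain ⟨hRl, hGl⟩ := hG' l hl
      have hPi : H.Pi l = (H.A l)⁻¹ * (r • (H.P l)ᵀ) * H.A (l + 1) := by
        rw [Hierarchy.Pi, hRl]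
      have hGl' : (r • (H.P l)ᵀ) * H.A (l + 1) * H.P l = (2 : ℝ) • H.A l := by
        rw [← hRl]; exact hGl
      have hA := hH.2.1 (l + 1) hl
      have hA' := hH.2.1 l hl.le
      have h2 := hA2 l hl
      rw [hPi] at h2 ⊢
      exact A2_one hA hA' hr0 hGl' (rho_pos hA (hH.1 (l + 1) hl)) hC hα hα1 h2 v
    obtain ⟨h1, h2⟩ := contraction_of_bound H L hH hG hR hC2 (by linarith) hm hB L le_rfl
    exact norm_of_form (hH.2.1 L le_rfl) _ h1 (by positivity) h2 v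

/-! ### The example for the negative part -/

/-- diagonal entries of the system matrices: `x` once, then ones -/
def dg (x : ℝ) (l : ℕ) : Fin (l + 1) → ℝ := fun i => if i = 0 then x else 1

/-- prolongation: `a e₀ + c e_last` in column `0`, `2 e_j` in the other columns -/
def Pm (a c : ℝ) (l : ℕ) : Matrix (Fin (l + 2)) (Fin (l + 1)) ℝ :=
  Matrix.of (fun i j => Fin.lastCases (motive := fun _ => ℝ) (if j = 0 then c else 0)
    (fun i' => if i' = j then (if j = 0 then a else 2) else 0) i)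

theorem Pm_cast (a c : ℝ) (l : ℕ) (i j : Fin (l + 1)) :
    Pm a c l i.castSucc j = if i = j then (if j = 0 then a else 2) else 0 := by
  simp [Pm]

theorem Pm_last (a c : ℝ) (l : ℕ) (j : Fin (l + 1)) :
    Pm a c l (Fin.last (l + 1)) j = if j = 0 then c else 0 := by
  simp [Pm]

theorem dg_cast (x : ℝ) (l : ℕ) (i : Fin (l + 1)) : dg x (l + 1) i.castSucc = dg x l i := by
  simp [dg]

theorem dg_last (x : ℝ) (l : ℕ) : dg x (l + 1) (Fin.last (l + 1)) = 1 := by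
  have : Fin.last (l + 1) ≠ 0 := (Fin.last_pos).ne'
  simp [dg, this]

theorem dg_pos {x : ℝ} (hx : 0 < x) (l : ℕ) (i : Fin (l + 1)) : 0 < dg x l i := by
  unfold dg; split_ifs
  · exact hx
  · exact one_pos

/-- the hierarchy -/
noncomputable def Hx (x a c : ℝ) : Hierarchy where
  n := fun l => l + 1
  A := fun l => Matrix.diagonal (dg x l)
  P := fun l => Pm a c l
  R := fun l => (1 / 2 : ℝ) • (Pm a c l)ᵀ
  Lam := fun _ => 1

theorem rho_dg (x : ℝ) (hx0 : 0 < x) (hx1 : x < 1) (l : ℕ) :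
    rho (Matrix.diagonal (dg x (l + 1))) = 1 := by
  have hmap : (Matrix.diagonal (dg x (l + 1))).map (algebraMap ℝ ℂ) =
      Matrix.diagonal (fun i => ((dg x (l + 1) i : ℝ) : ℂ)) := by
    rw [Matrix.diagonal_map (by simp)]; rfl
  rw [rho, hmap, spectrum_diagonal]
  have hset : {t : ℝ | ∃ μ : ℂ, μ ∈ Set.range (fun i => ((dg x (l + 1) i : ℝ) : ℂ)) ∧ t = ‖μ‖} =
      {x, 1} := by
    ext t
    constructor
    · rintro ⟨μ, ⟨i, rfl⟩, rfl⟩
      by_cases hi : i = 0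
      · left; simp [dg, hi, abs_of_pos hx0]
      · right; simp [dg, hi]
    · rintro (rfl | rfl)
      · exact ⟨_, ⟨0, rfl⟩, by simp [dg, abs_of_pos hx0]⟩
      · refine ⟨_, ⟨Fin.last (l + 1), rfl⟩, ?_⟩
        simp only [dg_last]; simp
  rw [hset]
  apply le_antisymm
  · apply csSup_le ⟨1, by simp⟩
    rintro t (rfl | rfl)
    · exact hx1.le
    · exact le_rfl
  · exact le_csSup ⟨1, by rintro t (rfl | rfl); exacts [hx1.le, le_rfl]⟩ (by simp)

theorem inv_dg (x : ℝ) (hx0 : 0 < x) (l : ℕ) :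
    (Matrix.diagonal (dg x l))⁻¹ = Matrix.diagonal (fun i => (dg x l i)⁻¹) := by
  apply Matrix.inv_eq_right_inv
  rw [Matrix.diagonal_mul_diagonal]
  have : (fun i => dg x l i * (dg x l i)⁻¹) = fun _ => 1 := by
    funext i
    exact mul_inv_cancel₀ (dg_pos hx0 l i).ne'
  rw [this]; exact Matrix.diagonal_one

/-- `Pᵀ A P = 4 A'` -/
theorem gal (x a c : ℝ) (h : a ^ 2 * x + c ^ 2 = 4 * x) (l : ℕ) :
    ((1 / 2 : ℝ) • (Pm a c l)ᵀ) * Matrix.diagonal (dg x (l + 1)) * Pm a c l =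
      (2 : ℝ) • Matrix.diagonal (dg x l) := by
  ext i j
  rw [Matrix.mul_apply, Fin.sum_univ_castSucc]
  simp only [Matrix.mul_diagonal, Matrix.smul_apply, Matrix.transpose_apply, Pm_cast, Pm_last,
    dg_cast, dg_last, smul_eq_mul, Matrix.diagonal_apply]
  by_cases hij : i = j
  · subst hij
    by_cases hi : i = 0
    · subst hi
      simp [dg]
      nlinarith
    · simp [dg, hi]
  · simp only [hij, if_false, mul_zero]
    by_cases hi : i = 0
    · subst hi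
      have hj : j ≠ 0 := fun h => hij h.symm
      simp [hj]
    · have hji : j ≠ i := fun h => hij h.symm
      simp [hi, hji]

/-- `Pᵀ (A v)` -/
theorem PtAv (x a c : ℝ) (l : ℕ) (v : Fin (l + 2) → ℝ) (j : Fin (l + 1)) :
    ((Pm a c l)ᵀ *ᵥ (Matrix.diagonal (dg x (l + 1)) *ᵥ v)) j =
      if j = 0 then a * x * v 0 + c * v (Fin.last (l + 1)) else 2 * v j.castSucc := by
  rw [Matrix.mulVec, dotProduct, Fin.sum_univ_castSucc]
  simp only [Matrix.mulVec_diagonal, Matrix.transpose_apply, Pm_cast, Pm_last,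
    dg_cast, dg_last]
  have h1 : (∑ i : Fin (l + 1), (if i = j then (if j = 0 then a else 2) else 0) *
      (dg x l i * v i.castSucc)) = (if j = 0 then a else 2) * (dg x l j * v j.castSucc) := by
    simp only [ite_mul, zero_mul, Finset.sum_ite_eq', Finset.mem_univ, if_true]
  rw [h1]
  by_cases hj : j = 0
  · subst hj
    simp [dg]
    ring
  · simp [hj, dg]

/-- the quadratic form of the reflection -/
theorem form_ex (x a c : ℝ) (hx : 0 < x) (l : ℕ) (v : Fin (l + 2) → ℝ) :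
    ainner (Matrix.diagonal (dg x (l + 1))) ((1 - Pm a c l * ((Matrix.diagonal (dg x l))⁻¹ *
      ((1 / 2 : ℝ) • (Pm a c l)ᵀ) * Matrix.diagonal (dg x (l + 1)))) *ᵥ v) v =
    (1 - a ^ 2 / 2) * (x * v 0 ^ 2) + (1 - c ^ 2 / (2 * x)) * v (Fin.last (l + 1)) ^ 2
      - a * c * v 0 * v (Fin.last (l + 1)) - ∑ j : Fin l, v j.succ.castSucc ^ 2 := by
  rw [split2, ainner_sub_left]
  have e1 : ainner (Matrix.diagonal (dg x (l + 1))) v v =
      x * v 0 ^ 2 + v (Fin.last (l + 1)) ^ 2 + ∑ j : Fin l, v j.succ.castSucc ^ 2 := by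
    rw [ainner, dotProduct, Fin.sum_univ_castSucc, Fin.sum_univ_succ]
    simp only [Matrix.mulVec_diagonal, dg_cast, dg_last]
    have : ∀ i : Fin l, v i.succ.castSucc * (dg x l i.succ * v i.succ.castSucc) =
        v i.succ.castSucc ^ 2 := by
      intro i; simp [dg]; ring
    rw [Finset.sum_congr rfl fun i _ => this i]
    simp [dg]
    ring
  have e2 : ainner (Matrix.diagonal (dg x (l + 1))) (Pm a c l *ᵥ (((Matrix.diagonal (dg x l))⁻¹ *
      ((1 / 2 : ℝ) • (Pm a c l)ᵀ) * Matrix.diagonal (dg x (l + 1))) *ᵥ v)) v =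
      (a * x * v 0 + c * v (Fin.last (l + 1))) ^ 2 / (2 * x) +
        2 * ∑ j : Fin l, v j.succ.castSucc ^ 2 := by
    rw [ainner, mulVec_dot, ← Matrix.mulVec_mulVec, ← Matrix.mulVec_mulVec, inv_dg x hx,
      dotProduct, Fin.sum_univ_succ]
    simp only [Matrix.mulVec_diagonal, Matrix.smul_mulVec, Pi.smul_apply, PtAv, smul_eq_mul,
      Fin.succ_ne_zero, if_true, if_false]
    have : ∀ i : Fin l, (dg x l i.succ)⁻¹ * (1 / 2 * (2 * v i.succ.castSucc)) *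
        (2 * v i.succ.castSucc) = 2 * v i.succ.castSucc ^ 2 := by
      intro i; simp [dg]; ring
    rw [Finset.sum_congr rfl fun i _ => this i, ← Finset.mul_sum]
    simp only [dg, if_true]
    field_simp
  rw [e1, e2]
  field_simp
  ring

theorem energy_ex (x : ℝ) (l : ℕ) (v : Fin (l + 2) → ℝ) :
    ainner (Matrix.diagonal (dg x (l + 1))) v v =
      x * v 0 ^ 2 + v (Fin.last (l + 1)) ^ 2 + ∑ j : Fin l, v j.succ.castSucc ^ 2 := by
  rw [ainner, dotProduct, Fin.sum_univ_castSucc, Fin.sum_univ_succ]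
  simp only [Matrix.mulVec_diagonal, dg_cast, dg_last]
  have : ∀ i : Fin l, v i.succ.castSucc * (dg x l i.succ * v i.succ.castSucc) =
      v i.succ.castSucc ^ 2 := by
    intro i; simp [dg]; ring
  rw [Finset.sum_congr rfl fun i _ => this i]
  simp [dg]
  ring

theorem sq_ex (x : ℝ) (l : ℕ) (v : Fin (l + 2) → ℝ) :
    (Matrix.diagonal (dg x (l + 1)) *ᵥ v) ⬝ᵥ (Matrix.diagonal (dg x (l + 1)) *ᵥ v) =
      x ^ 2 * v 0 ^ 2 + v (Fin.last (l + 1)) ^ 2 + ∑ j : Fin l, v j.succ.castSucc ^ 2 := by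
  rw [dotProduct, Fin.sum_univ_castSucc, Fin.sum_univ_succ]
  simp only [Matrix.mulVec_diagonal, dg_cast, dg_last]
  have : ∀ i : Fin l, dg x l i.succ * v i.succ.castSucc * (dg x l i.succ * v i.succ.castSucc) =
      v i.succ.castSucc ^ 2 := by
    intro i; simp [dg]; ring
  rw [Finset.sum_congr rfl fun i _ => this i]
  simp [dg]
  ring

/-- Cauchy-Schwarz estimate of the quadratic form -/
theorem ineq_ex {x g C a c y0 y1 S : ℝ} (hx0 : 0 < x) (hg0 : 0 ≤ g)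
    (hac : (a * c) ^ 2 ≤ 4 * x) (hC : 4 + g ^ 2 / x + g ^ 2 ≤ C ^ 2) (hS : 0 ≤ S)
    (hS1 : 1 ≤ C ^ 2) :
    (-g * (x * y0 ^ 2) + g * y1 ^ 2 - a * c * y0 * y1 - S) ^ 2 ≤
      C ^ 2 * (x ^ 2 * y0 ^ 2 + y1 ^ 2 + S) * (x * y0 ^ 2 + y1 ^ 2 + S) := by
  obtain ⟨sx, hsx0, hsx⟩ : ∃ s : ℝ, 0 < s ∧ s ^ 2 = x :=
    ⟨Real.sqrt x, Real.sqrt_pos.2 hx0, Real.sq_sqrt hx0.le⟩
  obtain ⟨σ, hσ0, hσ⟩ : ∃ s : ℝ, 0 ≤ s ∧ s ^ 2 = S := ⟨Real.sqrt S, Real.sqrt_nonneg _,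
    Real.sq_sqrt hS⟩
  set q := sx * |y0| with hq
  have hq0 : 0 ≤ q := by positivity
  have hqq : q ^ 2 = x * y0 ^ 2 := by rw [hq, mul_pow, hsx, sq_abs]
  set p := |y1| with hp
  have hp0 : 0 ≤ p := abs_nonneg _
  have hpp : p ^ 2 = y1 ^ 2 := sq_abs _
  have hcross : |a * c * y0 * y1| ≤ 2 * q * p := by
    have h1 : |a * c| ≤ 2 * sx := by
      apply abs_le_of_sq_le_sq _ (by positivity)
      rw [mul_pow 2 sx, hsx]; linarith
    have h2 : |a * c * y0 * y1| = |a * c| * (|y0| * p) := by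
      rw [abs_mul, abs_mul]; ring
    rw [h2, hq]
    have : 0 ≤ |y0| * p := by positivity
    nlinarith
  -- |F| ≤ T
  set T := q * (g * q + 2 * p) + (g * p) * p + σ * σ with hT
  have hFT : |(-g * (x * y0 ^ 2) + g * y1 ^ 2 - a * c * y0 * y1 - S)| ≤ T := by
    rw [abs_le] at hcross ⊢
    rw [hT, ← hqq, ← hpp, ← hσ]
    have hgq : 0 ≤ g * q ^ 2 := by positivity
    have hgp : 0 ≤ g * p ^ 2 := by positivity
    constructor
    · nlinarith [hcross.1, hcross.2]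
    · nlinarith [hcross.1, hcross.2, sq_nonneg σ]
  have hT0 : 0 ≤ T := by positivity
  have hF2 : (-g * (x * y0 ^ 2) + g * y1 ^ 2 - a * c * y0 * y1 - S) ^ 2 ≤ T ^ 2 := by
    rw [← sq_abs]
    exact pow_le_pow_left₀ (abs_nonneg _) hFT 2
  have hCS : T ^ 2 ≤ (q ^ 2 + p ^ 2 + σ ^ 2) * ((g * q + 2 * p) ^ 2 + (g * p) ^ 2 + σ ^ 2) := by
    rw [hT]
    nlinarith [sq_nonneg (q * (g * p) - p * (g * q + 2 * p)),
      sq_nonneg (q * σ - σ * (g * q + 2 * p)), sq_nonneg (p * σ - σ * (g * p))]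
  have hk : (g * q + 2 * p) ^ 2 ≤ (g ^ 2 / x + 4) * (x * q ^ 2 + p ^ 2) := by
    have h1 : 0 ≤ (g * p - 2 * x * q) ^ 2 / x := by positivity
    have h2 : (g * p - 2 * x * q) ^ 2 / x =
        (g ^ 2 / x + 4) * (x * q ^ 2 + p ^ 2) - (g * q + 2 * p) ^ 2 := by
      field_simp
      ring
    linarith
  have hM : (g * q + 2 * p) ^ 2 + (g * p) ^ 2 + σ ^ 2 ≤ C ^ 2 * (x * q ^ 2 + p ^ 2 + σ ^ 2) := by
    have h3 : (g * p) ^ 2 ≤ g ^ 2 * (x * q ^ 2 + p ^ 2) := by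
      have : 0 ≤ g ^ 2 * (x * q ^ 2) := by positivity
      linarith [mul_pow g p 2]
    have h4 : (4 + g ^ 2 / x + g ^ 2) * (x * q ^ 2 + p ^ 2) ≤ C ^ 2 * (x * q ^ 2 + p ^ 2) :=
      mul_le_mul_of_nonneg_right hC (by positivity)
    have h5 : 1 * σ ^ 2 ≤ C ^ 2 * σ ^ 2 := mul_le_mul_of_nonneg_right hS1 (sq_nonneg σ)
    calc (g * q + 2 * p) ^ 2 + (g * p) ^ 2 + σ ^ 2
        ≤ (g ^ 2 / x + 4) * (x * q ^ 2 + p ^ 2) + g ^ 2 * (x * q ^ 2 + p ^ 2) + 1 * σ ^ 2 := by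
          linarith
      _ = (4 + g ^ 2 / x + g ^ 2) * (x * q ^ 2 + p ^ 2) + 1 * σ ^ 2 := by ring
      _ ≤ C ^ 2 * (x * q ^ 2 + p ^ 2) + C ^ 2 * σ ^ 2 := add_le_add h4 h5
      _ = _ := by ring
  have e1 : x ^ 2 * y0 ^ 2 + y1 ^ 2 + S = x * q ^ 2 + p ^ 2 + σ ^ 2 := by
    rw [hqq, hpp, hσ]; ring
  have e2 : x * y0 ^ 2 + y1 ^ 2 + S = q ^ 2 + p ^ 2 + σ ^ 2 := by
    rw [hqq, hpp, hσ]
  rw [e1, e2]
  calc _ ≤ T ^ 2 := hF2
    _ ≤ _ := hCS
    _ ≤ (q ^ 2 + p ^ 2 + σ ^ 2) * (C ^ 2 * (x * q ^ 2 + p ^ 2 + σ ^ 2)) :=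
        mul_le_mul_of_nonneg_left hM (by positivity)
    _ = _ := by ring

/-- interpolation: `(A2)_α` for all `α ≤ 1/2` -/
theorem interp {F Q N C α : ℝ} (hQ : 0 ≤ Q) (hN : 0 ≤ N) (hC : 0 < C) (hα0 : 0 < α)
    (hα : α ≤ 1 / 2) (h1 : |F| ≤ N) (h2 : F ^ 2 ≤ C ^ 2 * Q * N) :
    |F| ≤ C ^ (2 * α) * Q ^ α * N ^ (1 - α) := by
  have e1 : C ^ (2 * α) * Q ^ α = (C ^ 2 * Q) ^ α := by
    rw [Real.mul_rpow (by positivity) hQ, Real.rpow_mul hC.le]
    norm_num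
  rw [e1]
  set y := C ^ 2 * Q with hy
  have hy0 : 0 ≤ y := by positivity
  rcases hN.eq_or_lt with hN0 | hN0
  · rw [← hN0] at h1
    exact h1.trans (mul_nonneg (Real.rpow_nonneg hy0 _) (Real.rpow_nonneg hN _))
  rcases hy0.eq_or_lt with hy00 | hy00
  · rw [← hy00, zero_mul] at h2
    have : F = 0 := by nlinarith [sq_nonneg F]
    rw [this, abs_zero]
    exact mul_nonneg (Real.rpow_nonneg hy0 _) (Real.rpow_nonneg hN _)
  rcases le_total N y with h3 | h3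
  · calc |F| ≤ N := h1
      _ = N ^ α * N ^ (1 - α) := by rw [← Real.rpow_add hN0]; simp
      _ ≤ y ^ α * N ^ (1 - α) := mul_le_mul_of_nonneg_right
          (Real.rpow_le_rpow hN h3 hα0.le) (Real.rpow_nonneg hN _)
  · calc |F| ≤ Real.sqrt (y * N) := Real.abs_le_sqrt h2
      _ = y ^ α * y ^ (1 / 2 - α) * N ^ (1 / 2 : ℝ) := by
          rw [← Real.rpow_add hy00, Real.sqrt_eq_rpow, Real.mul_rpow hy0 hN]
          congr 2; ring
      _ ≤ y ^ α * N ^ (1 / 2 - α) * N ^ (1 / 2 : ℝ) := by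
          apply mul_le_mul_of_nonneg_right _ (Real.rpow_nonneg hN _)
          apply mul_le_mul_of_nonneg_left _ (Real.rpow_nonneg hy0 _)
          exact Real.rpow_le_rpow hy0 h3 (by linarith)
      _ = y ^ α * N ^ (1 - α) := by
          rw [mul_assoc, ← Real.rpow_add hN0]; congr 2; ring

/-- the scalar error recursion -/
noncomputable def eps (x a : ℝ) (m : ℕ) : ℕ → ℝ
  | 0 => 0
  | l + 1 => (1 - x) ^ (2 * m) * (1 - a ^ 2 / 2 * (1 - eps x a m l))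

theorem Kd (x : ℝ) (l m : ℕ) (hm : m ≠ 0) :
    (1 - (1 : ℝ)⁻¹ • Matrix.diagonal (dg x l)) ^ m =
      Matrix.diagonal (fun i => if i = 0 then (1 - x) ^ m else 0) := by
  have h1 : (1 - (1 : ℝ)⁻¹ • Matrix.diagonal (dg x l)) =
      Matrix.diagonal (fun i => if i = 0 then (1 - x) else 0) := by
    rw [inv_one, one_smul, ← Matrix.diagonal_one, Matrix.diagonal_sub]
    congr 1
    funext i
    by_cases hi : i = 0 <;> simp [dg, hi]
  rw [h1, Matrix.diagonal_pow]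
  congr 1
  funext i
  by_cases hi : i = 0 <;> simp [hi, hm]

/-- the error operators, explicitly typed -/
noncomputable def Ey (x a c : ℝ) (m : ℕ) : ∀ l : ℕ, Matrix (Fin (l + 1)) (Fin (l + 1)) ℝ
  | 0 => 0
  | l + 1 => (1 - (1 : ℝ)⁻¹ • Matrix.diagonal (dg x (l + 1))) ^ m *
        (1 - Pm a c l * (1 - Ey x a c m l) *
          ((Matrix.diagonal (dg x l))⁻¹ * ((1 / 2 : ℝ) • (Pm a c l)ᵀ) *
            Matrix.diagonal (dg x (l + 1)))) *
        (1 - (1 : ℝ)⁻¹ • Matrix.diagonal (dg x (l + 1))) ^ m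

theorem E_eq_Ey (x a c : ℝ) (m l : ℕ) : (Hx x a c).E m l = Ey x a c m l := by
  induction l with
  | zero => rfl
  | succ l ih =>
    rw [Hierarchy.E, ih]
    rfl

theorem Ey_ex (x a c : ℝ) (hx : 0 < x) (m : ℕ) (hm : m ≠ 0) (l : ℕ) :
    Ey x a c m l = Matrix.of (fun i j => if i = 0 ∧ j = 0 then eps x a m l else 0) := by
  induction l with
  | zero =>
    ext i j
    simp [Ey, eps]
  | succ l ih =>
    rw [Ey, ih, Kd x _ m hm, inv_dg x hx]
    set Q0 : Matrix (Fin (l + 1)) (Fin (l + 2)) ℝ := Matrix.diagonal (fun i => (dg x l i)⁻¹) *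
      ((1 / 2 : ℝ) • (Pm a c l)ᵀ) * Matrix.diagonal (dg x (l + 1)) with hPi
    have hP0 : ∀ j, Pm a c l 0 j = if j = 0 then a else 0 := by
      intro j
      have : (0 : Fin (l + 2)) = (0 : Fin (l + 1)).castSucc := rfl
      rw [this, Pm_cast]
      by_cases hj : j = 0
      · simp [hj]
      · simp [hj, Ne.symm hj]
    have hPi00 : Q0 0 0 = a / 2 := by
      rw [hPi, Matrix.mul_diagonal, Matrix.diagonal_mul, Matrix.smul_apply,
        Matrix.transpose_apply, hP0]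
      simp only [dg, if_true, smul_eq_mul]
      field_simp
    have h1 : ∀ k, (Pm a c l * (1 - Matrix.of (fun (i j : Fin (l + 1)) =>
        if i = 0 ∧ j = 0 then eps x a m l else 0)) : Matrix (Fin (l + 2)) (Fin (l + 1)) ℝ) 0 k =
        if k = 0 then a * (1 - eps x a m l) else 0 := by
      intro k
      rw [Matrix.mul_apply]
      simp only [hP0, ite_mul, zero_mul, Finset.sum_ite_eq', Finset.mem_univ, if_true]
      by_cases hk : k = 0
      · simp [hk]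
      · simp [hk, Ne.symm hk]
    have h2 : (Pm a c l * (1 - Matrix.of (fun (i j : Fin (l + 1)) =>
        if i = 0 ∧ j = 0 then eps x a m l else 0)) * Q0 :
          Matrix (Fin (l + 2)) (Fin (l + 2)) ℝ) 0 0 =
        a ^ 2 / 2 * (1 - eps x a m l) := by
      rw [Matrix.mul_apply]
      simp only [h1, ite_mul, zero_mul, Finset.sum_ite_eq', Finset.mem_univ, if_true]
      rw [hPi00]; ring
    ext i j
    rw [Matrix.mul_diagonal, Matrix.diagonal_mul, Matrix.of_apply]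
    by_cases hi : i = 0
    · by_cases hj : j = 0
      · subst hi; subst hj
        rw [Matrix.sub_apply, h2]
        simp only [if_true, and_self, Matrix.one_apply_eq, eps]
        ring
      · simp [hj]
    · simp [hi]

theorem eps_growth {x g a : ℝ} {m : ℕ} (hx1 : x < 1) (hg0 : 0 < g)
    (ha : a ^ 2 / 2 = 1 + g) (hκ : 1 < (1 - x) ^ (2 * m) * (1 + g)) (B : ℝ) :
    ∃ l : ℕ, 1 ≤ l ∧ B < -eps x a m l := by
  set κ := (1 - x) ^ (2 * m) with hκdef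
  have hκ0 : 0 < κ := pow_pos (by linarith) _
  have hrec : ∀ l, -eps x a m (l + 1) = κ * g + κ * (1 + g) * (-eps x a m l) := by
    intro l
    rw [eps, ha, ← hκdef]; ring
  have hpos : ∀ l, κ * g * (κ * (1 + g)) ^ l ≤ -eps x a m (l + 1) := by
    intro l
    induction l with
    | zero => rw [hrec]; simp [eps]
    | succ l ih =>
      rw [hrec]
      have h1 : κ * (1 + g) * (κ * g * (κ * (1 + g)) ^ l) ≤ κ * (1 + g) * (-eps x a m (l + 1)) :=
        mul_le_mul_of_nonneg_left ih (by positivity)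
      have h2 : 0 < κ * g := by positivity
      calc κ * g * (κ * (1 + g)) ^ (l + 1) = κ * (1 + g) * (κ * g * (κ * (1 + g)) ^ l) := by ring
        _ ≤ _ := by linarith
  obtain ⟨k, hk⟩ := pow_unbounded_of_one_lt (B / (κ * g)) hκ
  refine ⟨k + 1, by omega, lt_of_lt_of_le ?_ (hpos k)⟩
  rw [div_lt_iff₀ (by positivity)] at hk
  linarith

theorem A2_ex {x g a c C α : ℝ} (hx0 : 0 < x) (hg0 : 0 < g)
    (ha : a ^ 2 = 2 * (1 + g)) (hc : c ^ 2 = 2 * (1 - g) * x)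
    (hC0 : 1 ≤ C) (hC : 4 + g ^ 2 / x + g ^ 2 ≤ C ^ 2) (hα0 : 0 < α) (hα : α ≤ 1 / 2)
    (l : ℕ) (v : Fin (l + 2) → ℝ) :
    |ainner (Matrix.diagonal (dg x (l + 1))) ((1 - Pm a c l * ((Matrix.diagonal (dg x l))⁻¹ *
      ((1 / 2 : ℝ) • (Pm a c l)ᵀ) * Matrix.diagonal (dg x (l + 1)))) *ᵥ v) v| ≤
      C ^ (2 * α) * enorm2 (Matrix.diagonal (dg x (l + 1)) *ᵥ v) ^ (2 * α) *
        anorm (Matrix.diagonal (dg x (l + 1))) v ^ (2 * (1 - α)) := by
  have hgal : ∀ l, ((1 / 2 : ℝ) • (Pm a c l)ᵀ) * Matrix.diagonal (dg x (l + 1)) * Pm a c l =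
      (2 : ℝ) • Matrix.diagonal (dg x l) := fun l => gal x a c (by rw [ha, hc]; ring) l
  have hpd : ∀ l, (Matrix.diagonal (dg x l)).PosDef := fun l =>
    Matrix.PosDef.diagonal (fun i => dg_pos hx0 l i)
  have e1 : enorm2 (Matrix.diagonal (dg x (l + 1)) *ᵥ v) ^ (2 * α) =
      ((Matrix.diagonal (dg x (l + 1)) *ᵥ v) ⬝ᵥ (Matrix.diagonal (dg x (l + 1)) *ᵥ v)) ^ α := by
    unfold enorm2
    rw [Real.sqrt_eq_rpow, ← Real.rpow_mul (dsn _)]
    congr 1; ring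
  have e2 : anorm (Matrix.diagonal (dg x (l + 1))) v ^ (2 * (1 - α)) =
      (ainner (Matrix.diagonal (dg x (l + 1))) v v) ^ (1 - α) := by
    unfold anorm
    rw [Real.sqrt_eq_rpow, ← Real.rpow_mul (ainner_nonneg (hpd _) v)]
    congr 1; ring
  rw [e1, e2]
  apply interp (dsn _) (ainner_nonneg (hpd _) v) (by linarith) hα0 hα
  · exact refl_form_le (hpd _) (hpd _) (by norm_num) (hgal l) v
  · rw [form_ex x a c hx0, sq_ex, energy_ex]
    have f1 : 1 - a ^ 2 / 2 = -g := by rw [ha]; ring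
    have f2 : 1 - c ^ 2 / (2 * x) = g := by rw [hc]; field_simp; ring
    rw [f1, f2]
    have hS : 0 ≤ ∑ j : Fin l, v j.succ.castSucc ^ 2 := Finset.sum_nonneg fun _ _ => sq_nonneg _
    apply ineq_ex hx0 hg0.le _ hC hS
    · nlinarith
    · rw [mul_pow, ha, hc]
      have : 0 ≤ g ^ 2 * x := by positivity
      nlinarith

theorem Hx_admissible {x g a c C α CR : ℝ} (hx0 : 0 < x) (hx1 : x < 1) (hg0 : 0 < g)
    (ha : a ^ 2 = 2 * (1 + g)) (hc : c ^ 2 = 2 * (1 - g) * x)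
    (hC0 : 1 ≤ C) (hC : 4 + g ^ 2 / x + g ^ 2 ≤ C ^ 2) (hα0 : 0 < α) (hα : α ≤ 1 / 2)
    (hCR : 1 ≤ CR) {L : ℕ} (hL : 1 ≤ L) : (Hx x a c).Admissible L CR C α := by
  have hgal : ∀ l, ((1 / 2 : ℝ) • (Pm a c l)ᵀ) * Matrix.diagonal (dg x (l + 1)) * Pm a c l =
      (2 : ℝ) • Matrix.diagonal (dg x l) := fun l => gal x a c (by rw [ha, hc]; ring) l
  have hpd : ∀ l, (Matrix.diagonal (dg x l)).PosDef := fun l =>
    Matrix.PosDef.diagonal (fun i => dg_pos hx0 l i)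
  refine ⟨hL, ⟨fun l _ => Nat.succ_pos l, fun l _ => hpd l, ?_⟩, ?_, ?_, ?_⟩
  · intro l _
    show Function.Injective (Pm a c l).mulVec
    intro v w hvw
    have h1 := congrArg (fun z => (((1 / 2 : ℝ) • (Pm a c l)ᵀ) *
      Matrix.diagonal (dg x (l + 1))) *ᵥ z) hvw
    simp only [Matrix.mulVec_mulVec] at h1
    rw [hgal] at h1
    funext i
    have h2 := congrFun h1 i
    simp only [Matrix.smul_mulVec, Pi.smul_apply, Matrix.mulVec_diagonal, smul_eq_mul] at h2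
    have h3 := (dg_pos hx0 l i).ne'
    have h4 : dg x l i * v i = dg x l i * w i := by linarith
    exact mul_left_cancel₀ h3 h4
  · exact ⟨1 / 2, by norm_num, by norm_num, fun l _ => ⟨rfl, hgal l⟩⟩
  · intro l hl _
    obtain ⟨k, rfl⟩ : ∃ k, l = k + 1 := ⟨l - 1, by omega⟩
    have h1 : rho ((Hx x a c).A (k + 1)) = 1 := rho_dg x hx0 hx1 k
    have h2 : (Hx x a c).Lam (k + 1) = 1 := rfl
    rw [h1, h2]
    constructor
    · exact le_rfl
    · linarith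
  · intro l _ v
    have h1 : rho ((Hx x a c).A (l + 1)) = 1 := rho_dg x hx0 hx1 l
    rw [h1, Real.one_rpow, div_one]
    exact A2_ex hx0 hg0 ha hc hC0 hC hα0 hα l v

/-- For `0 < α ≤ 1/2` and `C > 2` no number of smoothing steps suffices. -/
theorem negative {CR C α : ℝ} (hCR : 1 ≤ CR) (hC : 2 < C) (hα0 : 0 < α) (hα : α ≤ 1 / 2)
    {m : ℕ} (hm : 1 ≤ m) (B : ℝ) :
    ∃ (L : ℕ) (H : Hierarchy), H.Admissible L CR C α ∧ ∃ v, 0 < anorm (H.A L) v ∧
      B * anorm (H.A L) v < anorm (H.A L) (H.E m L *ᵥ v) := by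
  obtain ⟨μ, hμ0, hμ1, hμC⟩ : ∃ μ : ℝ, 0 < μ ∧ μ ≤ 1 ∧ μ ≤ C ^ 2 - 4 :=
    ⟨min 1 (C ^ 2 - 4), lt_min one_pos (by nlinarith), min_le_left _ _, min_le_right _ _⟩
  have hm' : (1 : ℝ) ≤ m := by exact_mod_cast hm
  set x := μ / (32 * m ^ 2) with hx
  have hx0 : 0 < x := by positivity
  have hmx : 32 * m ^ 2 * x = μ := by rw [hx]; field_simp
  have hx32 : x ≤ 1 / 32 := by
    rw [hx, div_le_div_iff₀ (by positivity) (by norm_num)]
    nlinarith
  set g := 4 * m * x with hg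
  have hg0 : 0 < g := by positivity
  have hg8 : g ≤ 1 / 8 := by
    have : 8 * m * g = μ := by rw [hg, ← hmx]; ring
    nlinarith
  have hgx : g ^ 2 / x = μ / 2 := by
    rw [hg, ← hmx]; field_simp; ring
  have hC2 : 4 + g ^ 2 / x + g ^ 2 ≤ C ^ 2 := by
    have h1 : g ^ 2 = μ / 2 * x := by rw [← hgx]; field_simp
    rw [hgx, h1]
    nlinarith
  have ha : (Real.sqrt (2 * (1 + g))) ^ 2 = 2 * (1 + g) := Real.sq_sqrt (by linarith)
  have hc : (Real.sqrt (2 * (1 - g) * x)) ^ 2 = 2 * (1 - g) * x :=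
    Real.sq_sqrt (mul_nonneg (by linarith) hx0.le)
  set a := Real.sqrt (2 * (1 + g)) with hadef
  set c := Real.sqrt (2 * (1 - g) * x) with hcdef
  have hκ : 1 < (1 - x) ^ (2 * m) * (1 + g) := by
    have h1 : 1 - 2 * m * x ≤ (1 - x) ^ (2 * m) := by
      have := one_add_mul_le_pow (show (-2 : ℝ) ≤ -x by linarith) (2 * m)
      push_cast at this
      have e : (1 + -x) = 1 - x := by ring
      rw [e] at this
      linarith
    have h2 : (1 - 2 * m * x) * (1 + g) ≤ (1 - x) ^ (2 * m) * (1 + g) :=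
      mul_le_mul_of_nonneg_right h1 (by linarith)
    have h3 : 2 * m * x = g / 2 := by rw [hg]; ring
    rw [h3] at h2
    nlinarith
  obtain ⟨L, hL1, hL⟩ := eps_growth (by linarith) hg0 (by rw [ha]; ring) hκ |B|
  refine ⟨L, Hx x a c, Hx_admissible hx0 (by linarith) hg0 ha hc (by linarith) hC2 hα0 hα hCR hL1,
    (Pi.single 0 1 : Fin (L + 1) → ℝ), ?_, ?_⟩
  · show 0 < anorm (Matrix.diagonal (dg x L)) (Pi.single 0 1 : Fin (L + 1) → ℝ)
    apply Real.sqrt_pos.2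
    apply ainner_pos (Matrix.PosDef.diagonal (fun i => dg_pos hx0 L i))
    intro h
    have := congrFun h 0
    simp at this
  · rw [E_eq_Ey, Ey_ex x a c hx0 m (by omega)]
    show B * anorm (Matrix.diagonal (dg x L)) (Pi.single 0 1 : Fin (L + 1) → ℝ) <
      anorm (Matrix.diagonal (dg x L)) ((Matrix.of (fun (i j : Fin (L + 1)) =>
        if i = 0 ∧ j = 0 then eps x a m L else 0) : Matrix (Fin (L + 1)) (Fin (L + 1)) ℝ) *ᵥ
          (Pi.single 0 1 : Fin (L + 1) → ℝ))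
    have e1 : (Matrix.of (fun (i j : Fin (L + 1)) =>
        if i = 0 ∧ j = 0 then eps x a m L else 0) : Matrix (Fin (L + 1)) (Fin (L + 1)) ℝ) *ᵥ
          (Pi.single 0 1 : Fin (L + 1) → ℝ) = eps x a m L • (Pi.single 0 1 : Fin (L + 1) → ℝ) := by
      funext i
      rw [Matrix.mulVec_single_one]
      by_cases hi : i = 0
      · subst hi; simp
      · simp [hi]
    rw [e1]
    have e2 : anorm (Matrix.diagonal (dg x L)) (eps x a m L • (Pi.single 0 1 : Fin (L + 1) → ℝ)) =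
        |eps x a m L| * anorm (Matrix.diagonal (dg x L)) (Pi.single 0 1 : Fin (L + 1) → ℝ) := by
      unfold anorm
      rw [ainner_smul_left, ainner_smul_right, ← mul_assoc, ← pow_two,
        Real.sqrt_mul (sq_nonneg _), Real.sqrt_sq_eq_abs]
    rw [e2]
    have hpos : 0 < anorm (Matrix.diagonal (dg x L)) (Pi.single 0 1 : Fin (L + 1) → ℝ) := by
      apply Real.sqrt_pos.2
      apply ainner_pos (Matrix.PosDef.diagonal (fun i => dg_pos hx0 L i))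
      intro h
      have := congrFun h 0
      simp at this
    apply mul_lt_mul_of_pos_right _ hpos
    calc B ≤ |B| := le_abs_self B
      _ < -eps x a m L := hL
      _ ≤ |eps x a m L| := neg_le_abs _

/-- **Answer to Q1.** (1) For `α ≤ 1/2` and every `C_A2 > 2` the V-cycle is not uniformly
contracting for any number `m` of smoothing steps; its energy norm is even unbounded.
(2) For `1/2 < α ≤ 1` there is a finite threshold for all `C_R` and `C_A2`, (3) which for `α = 1`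
is linear in `C_A2²`. (4) Hence the function `m₀` asked for in Q1 does not exist. -/
theorem result :
    (∀ CR C α : ℝ, 1 ≤ CR → 2 < C → 0 < α → α ≤ 1 / 2 → ∀ m : ℕ, 1 ≤ m → ∀ B : ℝ,
      ∃ (L : ℕ) (H : Hierarchy), H.Admissible L CR C α ∧ ∃ v, 0 < anorm (H.A L) v ∧
        B * anorm (H.A L) v < anorm (H.A L) (H.E m L *ᵥ v)) ∧
    (∀ CR C α : ℝ, 1 ≤ CR → 0 < C → 1 / 2 < α → α ≤ 1 → ∀ m : ℕ,
      CR * (C ^ (2 * α) * (3 * C ^ (2 * α)) ^ ((2 - 2 * α) / (2 * α - 1))) < m →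
      UniformContraction CR C α m) ∧
    (∀ CR C : ℝ, 1 ≤ CR → 0 < C → ∀ m : ℕ, CR * C ^ 2 < m → UniformContraction CR C 1 m) ∧
    ¬ ∃ m₀ : ℝ → ℝ → ℝ → ℝ, ∀ CR C α : ℝ, 1 ≤ CR → 0 < C → 0 < α → α ≤ 1 →
      ∀ m : ℕ, m₀ CR C α ≤ m → UniformContraction CR C α m := by
  refine ⟨fun CR C α h1 h2 h3 h4 m hm B => negative h1 h2 h3 h4 hm B,
    fun CR C α h1 h2 h3 h4 m hm => positive h1 h2 h3 h4 hm, ?_, ?_⟩
  · intro CR C h1 h2 m hm
    apply positive h1 h2 (by norm_num) le_rfl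
    have e : C ^ (2 * (1 : ℝ)) = C ^ 2 := by
      rw [mul_one]; exact Real.rpow_two C
    rw [e]
    norm_num
    exact hm
  · rintro ⟨m₀, h⟩
    obtain ⟨k, hk⟩ := exists_nat_ge (m₀ 1 3 (1 / 2))
    obtain ⟨δ, hδ, hc⟩ := h 1 3 (1 / 2) le_rfl (by norm_num) (by norm_num) (by norm_num) (k + 1)
      (by push_cast; linarith)
    obtain ⟨L, H, hadm, v, hv, hlt⟩ := negative (CR := 1) (C := 3) (α := 1 / 2) le_rfl
      (by norm_num) (by norm_num) le_rfl (m := k + 1) (by omega) 1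
    have := hc L H hadm v
    nlinarith

end Pool.Agent.Results.MP_89e789_an.HalfExponent
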